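import Pool.Agent.H.MP_722fe9_lc.B

namespace Pool.Agent.Results.MP_722fe9_lc.FixedK

open Pool.Agent.Lib.CX Pool.Agent.H.MP_722fe9_lc

theorem result : NPHard fun a : {a : Gr // a.G.Connected} => CLge a.1.G 7 := hard

end Pool.Agent.Results.MP_722fe9_lc.FixedK
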