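import Pool.Agent.H.MP_722fe9_lc.B

namespace Pool.Agent.Results.MP_722fe9_lc.Hard

open Pool.Agent.Lib.CX Pool.Agent.H.MP_722fe9_lc

theorem result : NPHard fun a : {a : Gr // a.G.Connected} × ℕ => CLge a.1.1.G a.2 :=
  hard.red ⟨fun a => (a, 7), by fun_prop, fun _ => .rfl⟩

end Pool.Agent.Results.MP_722fe9_lc.Hard
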